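import Mathlib
import Pool.Agent.H12.Boot

namespace Pool.Agent.Results.MP_38c1f8_pr.Counter

open ProbabilityTheory

variable {V : Type}

/-- the graph metric of the square grid `ℤ²` -/
def l1 (x y : ℤ × ℤ) : ℕ := (x.1 - y.1).natAbs + (x.2 - y.2).natAbs

/-- `G` with its graph metric is quasi-isometric to `ℤ²` -/
def QI (G : SimpleGraph V) : Prop :=
  ∃ (f : V → ℤ × ℤ) (C : ℕ),
    (∀ u v, G.dist u v ≤ C * l1 (f u) (f v) + C ∧ l1 (f u) (f v) ≤ C * G.dist u v + C) ∧
    ∀ z, ∃ v, l1 z (f v) ≤ C

/-- the 2-neighbour contamination map on sets of infected vertices -/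
def step (G : SimpleGraph V) (c : Set V) : Set V :=
  c ∪ {v | 2 ≤ (G.neighborSet v ∩ c).encard}

/-- the invasion set -/
def invasion (G : SimpleGraph V) : Set (Set V) := {c | ∀ v, ∃ n, v ∈ (step G)^[n] c}

/-- a finite nonempty set each of whose vertices has at most one neighbour outside -/
def Fortress (G : SimpleGraph V) (S : Set V) : Prop :=
  S.Finite ∧ S.Nonempty ∧ ∀ v ∈ S, (G.neighborSet v \ S).encard ≤ 1

open Pool.Agent.H12.Boot in
theorem result : ∃ (V : Type) (G : SimpleGraph V), Infinite V ∧ G.Connected ∧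
    (∀ v, (G.neighborSet v).encard = 4) ∧ QI G ∧ (∀ S, ¬ Fortress G S) ∧
    ∃ p : unitInterval, 0 < p ∧ p < 1 ∧ setBernoulli Set.univ p (invasion G) < 1 := by
  let R : V → V → Prop := fun u v => u.2.2 = true ∧ v.2.2 = false ∧
    (u.1 = v.1 ∨ u.2.1 = v.2.1 ∧ (v.1 = u.1 + (1, 0) ∨ v.1 = u.1 + (0, 1)))
  let G : SimpleGraph V :=
    { Adj := fun u v => R u v ∨ R v u
      symm := ⟨fun _ _ h => h.symm⟩
      loopless := ⟨fun u h => by rcases h with h | h <;> simp [R] at h <;> simp_all⟩ }
  have nT : ∀ x i, G.neighborSet (x, i, true) =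
      {(x, 0, false), (x, 1, false), (x + (1, 0), i, false), (x + (0, 1), i, false)} := by
    intro x i
    ext ⟨y, j, b⟩
    have : j = 0 ∨ j = 1 := by omega
    simp only [SimpleGraph.mem_neighborSet, G, R, Set.mem_insert_iff, Set.mem_singleton_iff,
      Prod.mk.injEq]
    grind
  have nF : ∀ x i, G.neighborSet (x, i, false) =
      {(x, 0, true), (x, 1, true), (x + (-1, 0), i, true), (x + (0, -1), i, true)} := by
    intro x i
    ext ⟨y, j, b⟩
    have : j = 0 ∨ j = 1 := by omega
    simp only [SimpleGraph.mem_neighborSet, G, R, Set.mem_insert_iff, Set.mem_singleton_iff,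
      Prod.mk.injEq, Prod.ext_iff, Prod.fst_add, Prod.snd_add]
    grind
  have nb : ∀ x i b, ∃ s : ℤ, (s = 1 ∨ s = -1) ∧ G.neighborSet (x, i, b) =
      {(x, 0, !b), (x, 1, !b), (x + (s, 0), i, !b), (x + (0, s), i, !b)} ∧ (b = true ↔ s = 1) := by
    rintro x i (_ | _)
    · exact ⟨-1, .inr rfl, nF x i, by simp⟩
    · exact ⟨1, .inl rfl, nT x i, by simp⟩
  have w0 : ∀ x a b, ∃ p : G.Walk (x, a) (x, b), p.length ≤ 2 := by
    rintro x ⟨i, a⟩ ⟨j, b⟩
    have ad : ∀ i j, G.Adj (x, i, true) (x, j, false) := fun i j => .inl ⟨rfl, rfl, .inl rfl⟩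
    cases a <;> cases b
    · exact ⟨.cons (ad 0 i).symm (.cons (ad 0 j) .nil), le_rfl⟩
    · exact ⟨.cons (ad j i).symm .nil, by simp⟩
    · exact ⟨.cons (ad i j) .nil, by simp⟩
    · exact ⟨.cons (ad i 0) (.cons (ad j 0).symm .nil), le_rfl⟩
  have w1 : ∀ n x y, l1 x y = n → ∀ a b, ∃ p : G.Walk (x, a) (y, b), p.length ≤ 3 * n + 2 := by
    intro n
    induction n with
    | zero =>
      intro x y h a b
      obtain rfl : x = y := by unfold l1 at h; ext <;> omega
      exact w0 x a b
    | succ n ih =>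
      intro x y h a b
      obtain ⟨z, c, d, h1, h2⟩ : ∃ z c d, G.Adj (x, c) (z, d) ∧ l1 z y = n := by
        unfold l1 at h ⊢
        by_cases e1 : x.1 < y.1
        · exact ⟨x + (1, 0), (0, true), (0, false), .inl ⟨rfl, rfl, .inr ⟨rfl, .inl rfl⟩⟩,
            by simp; omega⟩
        by_cases e2 : x.2 < y.2
        · exact ⟨x + (0, 1), (0, true), (0, false), .inl ⟨rfl, rfl, .inr ⟨rfl, .inr rfl⟩⟩,
            by simp; omega⟩
        by_cases e3 : y.1 < x.1
        · exact ⟨x - (1, 0), (0, false), (0, true), .inr ⟨rfl, rfl, .inr ⟨rfl, .inl (by simp)⟩⟩,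
            by simp; omega⟩
        · exact ⟨x - (0, 1), (0, false), (0, true), .inr ⟨rfl, rfl, .inr ⟨rfl, .inr (by simp)⟩⟩,
            by simp; omega⟩
      obtain ⟨p, hp⟩ := w0 x a c
      obtain ⟨q, hq⟩ := ih z y h2 d b
      exact ⟨p.append (.cons h1 q), by simp; omega⟩
  have w2 : ∀ u v (p : G.Walk u v), l1 u.1 v.1 ≤ p.length := by
    intro u v p
    induction p with
    | nil => simp [l1]
    | cons h p ih =>
      simp only [G, R, Prod.ext_iff, Prod.fst_add, Prod.snd_add] at h
      simp only [l1, SimpleGraph.Walk.length_cons] at ih ⊢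
      omega
  have con : G.Connected := ⟨fun u v => (w1 _ _ _ rfl u.2 v.2).elim fun p _ => ⟨p⟩⟩
  refine ⟨V, G, inferInstance, con, ?_, ⟨Prod.fst, 3, fun u v => ⟨?_, ?_⟩,
    fun z => ⟨(z, 0, true), by simp [l1]⟩⟩, ?_, p0, ?_, ?_, ?_⟩
  · rintro ⟨x, i, b⟩
    obtain ⟨s, hs, e, -⟩ := nb x i b
    have : s ≠ 0 := by omega
    rw [e, Set.encard_insert_of_notMem (by simp [this]), Set.encard_insert_of_notMem (by simp [this]),
      Set.encard_pair (by simp [this])]
    rfl
  · obtain ⟨p, hp⟩ := w1 _ _ _ rfl u.2 v.2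
    exact (SimpleGraph.dist_le p).trans (by omega)
  · obtain ⟨p, hp⟩ := (con u v).exists_walk_length_eq_dist
    have := w2 u v p
    omega
  · rintro S ⟨h1, h2, h3⟩
    obtain ⟨⟨x, i, b⟩, hv, hm⟩ := Set.exists_max_image S (fun v => v.1.1 + v.1.2) h1 h2
    have two : ∀ v ∈ S, ∀ a b, a ≠ b → a ∈ G.neighborSet v → b ∈ G.neighborSet v → a ∉ S → b ∉ S →
        False := fun v hv a b e ha hb ha' hb' =>
      e (Set.encard_le_one_iff.1 (h3 v hv) a b ⟨ha, ha'⟩ ⟨hb, hb'⟩)
    have hT : ∀ j, (x, j, true) ∉ S := fun j hj =>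
      two _ hj (x + (1, 0), j, false) (x + (0, 1), j, false) (by simp) (by simp [nT]) (by simp [nT])
        (fun h => by simpa using hm _ h) (fun h => by simpa using hm _ h)
    cases b
    · exact two _ hv (x, 0, true) (x, 1, true) (by simp) (by simp [nF]) (by simp [nF]) (hT _) (hT _)
    · exact hT i hv
  · exact Subtype.mk_lt_mk.2 (by norm_num)
  · exact Subtype.mk_lt_mk.2 (by norm_num)
  · refine (MeasureTheory.measure_mono fun c hc => ?_).trans_lt both_lt
    by_contra h0
    have key : ∀ n x, ¬ Dead 1 c x → ¬ Dead (-1) c x → ∀ a, (x, a) ∉ (step G)^[n] c := by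
      intro n
      induction n with
      | zero => exact fun x h _ a ha => h (.cl x a ha)
      | succ n ih =>
        rintro x h1 h2 ⟨i, b⟩ h
        rw [Function.iterate_succ_apply'] at h
        rcases h with h | h
        · exact ih x h1 h2 _ h
        obtain ⟨s, hs, e, -⟩ := nb x i b
        have back : ∀ s : ℤ, ∀ y, ¬ Dead s c y → ¬ Dead (-s) c x →
            (y = x + (s, 0) ∨ y = x + (0, s)) → ¬ Dead (-s) c y := by
          intro s y a1 a2 a3 a4
          cases a4 with
          | cl _ j hj => exact a1 (.cl _ j hj)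
          | st _ b1 b2 =>
            rcases a3 with rfl | rfl
            · exact a2 (by simpa [add_assoc, Prod.mk_zero_zero] using b1)
            · exact a2 (by simpa [add_assoc, Prod.mk_zero_zero] using b2)
        have good : ∀ y, (y = x + (s, 0) ∨ y = x + (0, s)) → ¬ Dead s c y →
            ∀ a, (y, a) ∉ (step G)^[n] c := by
          intro y hy h3
          rcases hs with rfl | rfl
          · exact ih y h3 (back 1 y h3 h2 hy)
          · exact ih y (by simpa using back (-1) y h3 (by simpa using h1) hy) h3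
        have hx : ¬ Dead s c x := by rcases hs with rfl | rfl <;> assumption
        have : (G.neighborSet (x, i, b) ∩ (step G)^[n] c).encard ≤ 1 := by
          rw [e]
          by_cases d : Dead s c (x + (s, 0))
          · refine (Set.encard_le_encard (t := {(x + (s, 0), i, !b)}) ?_).trans (by simp)
            rintro _ ⟨rfl | rfl | rfl | rfl, h4⟩
            · exact absurd h4 (ih x h1 h2 _)
            · exact absurd h4 (ih x h1 h2 _)
            · rfl
            · exact absurd h4 (good _ (.inr rfl) (fun d' => hx (.st x d d')) _)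
          · refine (Set.encard_le_encard (t := {(x + (0, s), i, !b)}) ?_).trans (by simp)
            rintro _ ⟨rfl | rfl | rfl | rfl, h4⟩
            · exact absurd h4 (ih x h1 h2 _)
            · exact absurd h4 (ih x h1 h2 _)
            · exact absurd h4 (good _ (.inl rfl) d _)
            · rfl
        exact absurd (le_trans h this) (by norm_num)
    obtain ⟨n, hn⟩ := hc (0, 0, true)
    exact key n 0 (fun h => h0 (.inl h)) (fun h => h0 (.inr h)) _ hn

end Pool.Agent.Results.MP_38c1f8_pr.Counter
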